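import Pool.Agent.Helper89.UB.Stmts

set_option autoImplicit false

open Finset

namespace Pool.Agent.Helper89.UB

theorem st_INB : ST_INB := by
  classical
  intro n D M r E hE hr hD hM W m c hc v hv
  unfold OP at hc
  obtain ⟨hne, hdis, hcov, hal⟩ := (Finset.mem_filter.1 hc).2
  have hbad : ∀ i : Fin m, ¬ Al E (insert v (c i)) → ∃ e ∈ E, e ⊆ insert v (c i) := by
    intro i hi
    by_contra hcon
    apply hi
    intro e he hsub
    exact hcon ⟨e, he, hsub⟩
  choose! f hfE hfs using hbad
  set B := Finset.univ.filter (fun i : Fin m => ¬ Al E (insert v (c i))) with hB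
  have hmemB : ∀ i ∈ B, ¬ Al E (insert v (c i)) := fun i hi => (Finset.mem_filter.1 hi).2
  have hve : ∀ i ∈ B, v ∈ f i := by
    intro i hi
    by_contra hcon
    refine hal i (f i) (hfE i (hmemB i hi)) ?_
    intro x hx
    rcases Finset.mem_insert.1 (hfs i (hmemB i hi) hx) with h | h
    · exact absurd (h ▸ hx) hcon
    · exact h
  have hu : ∀ i ∈ B, ∃ u ∈ f i, u ∈ c i := by
    intro i hi
    obtain ⟨u, hu1, hu2⟩ := Finset.exists_mem_ne
      (lt_of_lt_of_le one_lt_two (hE (f i) (hfE i (hmemB i hi)))) v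
    refine ⟨u, hu1, ?_⟩
    rcases Finset.mem_insert.1 (hfs i (hmemB i hi) hu1) with h | h
    · exact absurd h hu2
    · exact h
  have hvc : ∀ i, v ∉ c i := fun i hi => hv ((hcov v).2 ⟨i, hi⟩)
  have hinj : ∀ i ∈ B, ∀ j ∈ B, f i = f j → i = j := by
    intro i hi j hj hij
    by_contra hne'
    obtain ⟨u, hu1, hu2⟩ := hu i hi
    have hu3 : u ∈ insert v (c j) := hfs j (hmemB j hj) (hij ▸ hu1)
    rcases Finset.mem_insert.1 hu3 with h | h
    · exact hvc i (h ▸ hu2)
    · exact Finset.disjoint_left.1 (hdis i j hne') hu2 h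
  have hsub : B ⊆ (B.filter (fun i => (f i).card = 2)) ∪
      (B.filter (fun i => 3 ≤ (f i).card ∧ (f i).card < r)) ∪
      (B.filter (fun i => r ≤ (f i).card)) := by
    intro i hi
    have h2 := hE (f i) (hfE i (hmemB i hi))
    by_cases h3 : (f i).card = 2
    · exact Finset.mem_union.2 (Or.inl (Finset.mem_union.2 (Or.inl
        (Finset.mem_filter.2 ⟨hi, h3⟩))))
    · by_cases h4 : (f i).card < r
      · exact Finset.mem_union.2 (Or.inl (Finset.mem_union.2 (Or.inr
          (Finset.mem_filter.2 ⟨hi, by omega, h4⟩))))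
      · exact Finset.mem_union.2 (Or.inr (Finset.mem_filter.2 ⟨hi, by omega⟩))
  have hc1 : (B.filter (fun i => (f i).card = 2)).card ≤ D := by
    refine le_trans ?_ (hD v)
    unfold deg2
    refine Finset.card_le_card_of_injOn f ?_ ?_
    · intro i hi
      have hi' := Finset.mem_filter.1 hi
      exact Finset.mem_filter.2 ⟨hfE i (hmemB i hi'.1), hi'.2, hve i hi'.1⟩
    · intro i hi j hj hij
      exact hinj i (Finset.mem_filter.1 hi).1 j (Finset.mem_filter.1 hj).1 hij
  have hc2 : (B.filter (fun i => 3 ≤ (f i).card ∧ (f i).card < r)).card ≤ M := by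
    refine le_trans ?_ hM
    refine Finset.card_le_card_of_injOn f ?_ ?_
    · intro i hi
      have hi' := Finset.mem_filter.1 hi
      exact Finset.mem_filter.2 ⟨hfE i (hmemB i hi'.1), hi'.2⟩
    · intro i hi j hj hij
      exact hinj i (Finset.mem_filter.1 hi).1 j (Finset.mem_filter.1 hj).1 hij
  have hc3 : (B.filter (fun i => r ≤ (f i).card)).card ≤ n / (r - 1) := by
    rw [Nat.le_div_iff_mul_le (by omega)]
    have h1 : (B.filter (fun i => r ≤ (f i).card)).card * (r - 1) ≤
        ∑ i ∈ B.filter (fun i => r ≤ (f i).card), (c i).card := by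
      rw [← smul_eq_mul]
      refine Finset.card_nsmul_le_sum _ _ _ ?_
      intro i hi
      have hi' := Finset.mem_filter.1 hi
      have h2 : (f i).card ≤ (insert v (c i)).card :=
        Finset.card_le_card (hfs i (hmemB i hi'.1))
      have h3 := Finset.card_insert_le v (c i)
      have h4 := hi'.2
      omega
    refine le_trans h1 ?_
    have h5 : ∑ i ∈ B.filter (fun i => r ≤ (f i).card), (c i).card =
        ((B.filter (fun i => r ≤ (f i).card)).biUnion c).card := by
      rw [Finset.card_biUnion]
      intro i _ j _ hij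
      exact hdis i j hij
    rw [h5]
    refine le_trans (Finset.card_le_univ _) ?_
    rw [Fintype.card_fin]
  calc B.card ≤ _ := Finset.card_le_card hsub
    _ ≤ ((B.filter (fun i => (f i).card = 2)) ∪
      (B.filter (fun i => 3 ≤ (f i).card ∧ (f i).card < r))).card +
      (B.filter (fun i => r ≤ (f i).card)).card := Finset.card_union_le _ _
    _ ≤ ((B.filter (fun i => (f i).card = 2)).card +
      (B.filter (fun i => 3 ≤ (f i).card ∧ (f i).card < r)).card) +
      (B.filter (fun i => r ≤ (f i).card)).card := by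
        exact Nat.add_le_add_right (Finset.card_union_le _ _) _
    _ ≤ D + M + n / (r - 1) := by
        exact Nat.add_le_add (Nat.add_le_add hc1 hc2) hc3

end Pool.Agent.Helper89.UB
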